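import Mathlib
import Pool.Agent.CA31.RealCut
import Pool.Agent.CA31.Minor

/-!
# CA72: real circular-arc graphs are closed under contraction of disjoint connected sets
-/

set_option autoImplicit false

namespace Pool.Agent.CA72

open Finset Pool.Agent.CA31
open scoped Classical

/-- `G` is the intersection graph of arcs of the circle `ℝ/ℤ`; the arc of `v` is the image of `[a v, b v]` -/
def RA {V : Type} (G : SimpleGraph V) : Prop :=
  ∃ a b : V → ℝ, (∀ v, a v ≤ b v) ∧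
    ∀ u v, G.Adj u v ↔ u ≠ v ∧ ∃ x : ℝ, OnArc a b u x ∧ OnArc a b v x

/-- the graph obtained by contracting the sets `f i` (and deleting the rest) -/
def QG {V W : Type} (G : SimpleGraph V) (f : W → Set V) : SimpleGraph W where
  Adj i j := i ≠ j ∧ ∃ u ∈ f i, ∃ v ∈ f j, G.Adj u v
  symm := ⟨by
    rintro i j ⟨h, u, hu, v, hv, huv⟩
    exact ⟨h.symm, v, hv, u, hu, huv.symm⟩⟩
  loopless := ⟨fun i h => h.1 rfl⟩

theorem QG_adj {V W : Type} {G : SimpleGraph V} {f : W → Set V} {i j : W} :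
    (QG G f).Adj i j ↔ i ≠ j ∧ ∃ u ∈ f i, ∃ v ∈ f j, G.Adj u v := Iff.rfl

/-- a point of the circle in the image of `[A, B]` -/
def On (A B x : ℝ) : Prop := ∃ m : ℤ, A ≤ x + m ∧ x + m ≤ B

theorem on_union {A B a b x : ℝ} (h1 : On A B x) (h2 : On a b x) :
    ∃ A' B' : ℝ, A' ≤ B' ∧ ∀ y, On A' B' y ↔ On A B y ∨ On a b y := by
  obtain ⟨m, h1, h1'⟩ := h1
  obtain ⟨n, h2, h2'⟩ := h2
  refine ⟨min A (a + (m - n)), max B (b + (m - n)), ?_, fun y => ?_⟩
  · exact (min_le_left _ _).trans ((h1.trans h1').trans (le_max_left _ _))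
  · constructor
    · rintro ⟨l, h3, h4⟩
      rcases le_total (y + l) (x + m) with h5 | h5
      · rcases min_le_iff.1 h3 with h6 | h6
        · left; exact ⟨l, h6, by linarith⟩
        · right
          refine ⟨l - m + n, ?_, ?_⟩ <;> push_cast <;> linarith
      · rcases le_max_iff.1 h4 with h6 | h6
        · left; exact ⟨l, by linarith, h6⟩
        · right
          refine ⟨l - m + n, ?_, ?_⟩ <;> push_cast <;> linarith
    · rintro (⟨l, h3, h4⟩ | ⟨l, h3, h4⟩)
      · exact ⟨l, (min_le_left _ _).trans h3, h4.trans (le_max_left _ _)⟩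
      · refine ⟨l + m - n, (min_le_right _ _).trans ?_, le_trans ?_ (le_max_right _ _)⟩ <;>
          push_cast <;> linarith

/-- the union of the arcs of a connected set of vertices is an arc -/
theorem conn_arc {V : Type} [Finite V] {G : SimpleGraph V} {a b : V → ℝ} (hab : ∀ v, a v ≤ b v)
    (hG : ∀ u v, G.Adj u v ↔ u ≠ v ∧ ∃ x : ℝ, OnArc a b u x ∧ OnArc a b v x)
    {S : Set V} (hS : (G.induce S).Connected) :
    ∃ A B : ℝ, A ≤ B ∧ ∀ x, On A B x ↔ ∃ v ∈ S, OnArc a b v x := by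
  have := Fintype.ofFinite V
  obtain ⟨v0, hv0⟩ := hS.nonempty
  let P : Finset V → Prop := fun T => (∀ v ∈ T, v ∈ S) ∧ v0 ∈ T ∧
    ∃ A B : ℝ, A ≤ B ∧ ∀ x, On A B x ↔ ∃ v ∈ T, OnArc a b v x
  have h0 : P {v0} := by
    refine ⟨fun v hv => by rw [Finset.mem_singleton] at hv; rw [hv]; exact hv0,
      Finset.mem_singleton_self _, a v0, b v0, hab v0, fun x => ?_⟩
    constructor
    · intro h; exact ⟨v0, Finset.mem_singleton_self _, h⟩
    · rintro ⟨v, hv, h⟩
      rw [Finset.mem_singleton] at hv; rw [hv] at h; exact h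
  obtain ⟨T, hT, hmax⟩ := Finset.exists_max_image (Finset.univ.filter P) Finset.card
    ⟨{v0}, Finset.mem_filter.2 ⟨Finset.mem_univ _, h0⟩⟩
  rw [Finset.mem_filter] at hT
  obtain ⟨hTS, hv0T, A, B, hAB, hx⟩ := hT.2
  have hall : ∀ v ∈ S, v ∈ T := by
    by_contra hne
    push Not at hne
    obtain ⟨w, hwS, hwT⟩ := hne
    obtain ⟨p⟩ := hS.preconnected ⟨v0, hv0⟩ ⟨w, hwS⟩
    obtain ⟨d, -, h1, h2⟩ := p.exists_boundary_dart {z | z.1 ∈ T} hv0T hwT
    have hadj : G.Adj d.fst.1 d.snd.1 := d.adj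
    obtain ⟨hne', x, hx1, hx2⟩ := (hG _ _).1 hadj
    obtain ⟨A', B', hAB', h'⟩ := on_union (A := A) (B := B) (a := a d.snd.1) (b := b d.snd.1) (x := x)
      ((hx x).2 ⟨_, h1, hx1⟩) hx2
    have hP : P (insert d.snd.1 T) := by
      refine ⟨fun v hv => ?_, Finset.mem_insert_of_mem hv0T, A', B', hAB', fun y => ?_⟩
      · rcases Finset.mem_insert.1 hv with rfl | hv
        · exact d.snd.2
        · exact hTS v hv
      · rw [h', hx]
        constructor
        · rintro (⟨v, hv, h⟩ | h)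
          · exact ⟨v, Finset.mem_insert_of_mem hv, h⟩
          · exact ⟨_, Finset.mem_insert_self _ _, h⟩
        · rintro ⟨v, hv, h⟩
          rcases Finset.mem_insert.1 hv with rfl | hv
          · right; exact h
          · left; exact ⟨v, hv, h⟩
    have := hmax _ (Finset.mem_filter.2 ⟨Finset.mem_univ _, hP⟩)
    rw [Finset.card_insert_of_notMem h2] at this
    omega
  refine ⟨A, B, hAB, fun x => ?_⟩
  rw [hx]
  constructor
  · rintro ⟨v, hv, h⟩; exact ⟨v, hTS v hv, h⟩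
  · rintro ⟨v, hv, h⟩; exact ⟨v, hall v hv, h⟩

/-- real circular-arc graphs are closed under contraction of disjoint connected sets -/
theorem RA.quot {V W : Type} [Finite V] {G : SimpleGraph V} (h : RA G) (f : W → Set V)
    (hc : ∀ i, (G.induce (f i)).Connected) (hd : ∀ i j, i ≠ j → Disjoint (f i) (f j)) :
    RA (QG G f) := by
  obtain ⟨a, b, hab, hG⟩ := h
  choose A B hAB hx using fun i => conn_arc hab hG (hc i)
  refine ⟨A, B, hAB, fun i j => ?_⟩
  have key : ∀ i x, OnArc A B i x ↔ ∃ v ∈ f i, OnArc a b v x := fun i x => hx i x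
  rw [QG_adj]
  constructor
  · rintro ⟨hne, u, hu, v, hv, huv⟩
    obtain ⟨-, x, h1, h2⟩ := (hG u v).1 huv
    exact ⟨hne, x, (key i x).2 ⟨u, hu, h1⟩, (key j x).2 ⟨v, hv, h2⟩⟩
  · rintro ⟨hne, x, h1, h2⟩
    obtain ⟨u, hu, h1⟩ := (key i x).1 h1
    obtain ⟨v, hv, h2⟩ := (key j x).1 h2
    refine ⟨hne, u, hu, v, hv, (hG u v).2 ⟨?_, x, h1, h2⟩⟩
    rintro rfl
    exact Set.disjoint_left.1 (hd i j hne) hu hv

/-- induced subgraphs -/
theorem RA.induce {V : Type} {G : SimpleGraph V} (h : RA G) (S : Set V) : RA (G.induce S) := by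
  obtain ⟨a, b, hab, hG⟩ := h
  refine ⟨fun v => a v.1, fun v => b v.1, fun v => hab v.1, fun u v => ?_⟩
  rw [SimpleGraph.comap_adj]
  exact (hG u.1 v.1).trans (and_congr (not_congr Subtype.ext_iff.symm) Iff.rfl)

end Pool.Agent.CA72
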