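import Mathlib
import Pool.Agent.CA72.RA

/-!
# CA72: minimal counterexamples among the real circular-arc graphs
-/

set_option autoImplicit false

namespace Pool.Agent.CA72

open Finset Pool.Agent.CA31
open scoped Classical

/-- every proper 'induced minor' of `G` is `k`-colourable -/
def ConCrit {V : Type} [Fintype V] (G : SimpleGraph V) (k : ℕ) : Prop :=
  ∀ (W : Type) [Fintype W] (f : W → Set V), (∀ i, (G.induce (f i)).Connected) →
    (∀ i j, i ≠ j → Disjoint (f i) (f j)) → Fintype.card W < Fintype.card V →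
    (QG G f).Colorable k

theorem conn_union {V W : Type} {G : SimpleGraph V} {f : W → Set V}
    (hc : ∀ i, (G.induce (f i)).Connected) {S : Set W} (hS : ((QG G f).induce S).Connected) :
    (G.induce {v | ∃ i ∈ S, v ∈ f i}).Connected := by
  set U : Set V := {v | ∃ i ∈ S, v ∈ f i} with hU
  have hin : ∀ i (hi : i ∈ S) (u u' : V) (hu : u ∈ f i) (hu' : u' ∈ f i),
      (G.induce U).Reachable ⟨u, i, hi, hu⟩ ⟨u', i, hi, hu'⟩ := by
    intro i hi u u' hu hu'
    have h1 := (hc i).preconnected ⟨u, hu⟩ ⟨u', hu'⟩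
    exact h1.map (SimpleGraph.induceHomOfLE G (s := f i) (s' := U)
      (fun v hv => ⟨i, hi, hv⟩)).toHom
  have hwalk : ∀ (x y : S) (p : ((QG G f).induce S).Walk x y) (u v : V) (hu : u ∈ f x.1)
      (hv : v ∈ f y.1), (G.induce U).Reachable ⟨u, x.1, x.2, hu⟩ ⟨v, y.1, y.2, hv⟩ := by
    intro x y p
    induction p with
    | @nil x => intro u v hu hv; exact hin x.1 x.2 u v hu hv
    | @cons x z y hxz p ih =>
      intro u v hu hv
      have hadj : (QG G f).Adj x.1 z.1 := hxz
      obtain ⟨-, u1, hu1, v1, hv1, h1⟩ := hadj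
      have h2 : (G.induce U).Adj ⟨u1, x.1, x.2, hu1⟩ ⟨v1, z.1, z.2, hv1⟩ := h1
      exact ((hin x.1 x.2 u u1 hu hu1).trans h2.reachable).trans (ih v1 v hv1 hv)
  have hne := hS.nonempty
  obtain ⟨i0, hi0⟩ := hne
  obtain ⟨v0, hv0⟩ := (hc i0).nonempty
  have : Nonempty U := ⟨⟨v0, i0, hi0, hv0⟩⟩
  refine SimpleGraph.Connected.mk ?_
  rintro ⟨u, i, hi, hu⟩ ⟨v, j, hj, hv⟩
  obtain ⟨p⟩ := hS.preconnected ⟨i, hi⟩ ⟨j, hj⟩
  exact hwalk ⟨i, hi⟩ ⟨j, hj⟩ p u v hu hv

theorem hasMinor_of_quot {V W : Type} {G : SimpleGraph V} {f : W → Set V}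
    (hc : ∀ i, (G.induce (f i)).Connected) (hd : ∀ i j, i ≠ j → Disjoint (f i) (f j)) {m : ℕ}
    (h : HasMinor (QG G f) m) : HasMinor G m := by
  obtain ⟨g, h1, h2, h3⟩ := h
  refine ⟨fun l => {v | ∃ i ∈ g l, v ∈ f i}, fun l => conn_union hc (h1 l), ?_, ?_⟩
  · intro l l' hl
    rw [Set.disjoint_left]
    rintro v ⟨i, hi, hv⟩ ⟨j, hj, hv'⟩
    have hij : i ≠ j := by
      rintro rfl
      exact Set.disjoint_left.1 (h2 l l' hl) hi hj
    exact Set.disjoint_left.1 (hd i j hij) hv hv'
  · intro l l' hl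
    obtain ⟨i, hi, j, hj, -, u, hu, v, hv, huv⟩ := h3 l l' hl
    exact ⟨u, ⟨i, hi, hu⟩, v, ⟨j, hj, hv⟩, huv⟩

theorem singleton_conn {V : Type} (G : SimpleGraph V) (v : V) : (G.induce ({v} : Set V)).Connected := by
  have : Nonempty ({v} : Set V) := ⟨⟨v, rfl⟩⟩
  refine SimpleGraph.Connected.mk ?_
  rintro ⟨u, hu⟩ ⟨w, hw⟩
  have h1 : u = v := hu
  have h2 : w = v := hw
  subst h1; subst h2
  exact SimpleGraph.Reachable.refl _

/-- adding a universal vertex -/
theorem hasMinor_succ {V : Type} {G : SimpleGraph V} {v : V} (hv : ∀ w, w ≠ v → G.Adj v w) {k : ℕ}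
    (h : HasMinor (G.induce {w | w ≠ v}) k) : HasMinor G (k + 1) := by
  obtain ⟨f, h1, h2, h3⟩ := h
  have hcon : ∀ i, (G.induce (Subtype.val '' f i)).Connected := by
    intro i
    have hh := (h1 i)
    let e : ((G.induce {w | w ≠ v}).induce (f i)) →g (G.induce (Subtype.val '' f i)) :=
      { toFun := fun x => ⟨x.1.1, x.1, x.2, rfl⟩
        map_rel' := fun {x y} hxy => hxy }
    refine SimpleGraph.Connected.map e ?_ hh
    rintro ⟨_, w, hw, rfl⟩
    exact ⟨⟨w, hw⟩, rfl⟩
  have hne : ∀ i, ∃ w, w ∈ f i := by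
    intro i
    obtain ⟨w, hw⟩ := (h1 i).nonempty
    exact ⟨w, hw⟩
  refine ⟨Fin.cons {v} (fun i => Subtype.val '' f i), ?_, ?_, ?_⟩
  · intro i
    refine Fin.cases ?_ (fun i => ?_) i
    · exact singleton_conn G v
    · exact hcon i
  · intro i j
    refine Fin.cases ?_ (fun i => ?_) i
    · refine Fin.cases ?_ (fun j => ?_) j
      · intro h; exact absurd rfl h
      · intro _
        show Disjoint ({v} : Set V) (Subtype.val '' f j)
        rw [Set.disjoint_left]
        rintro w hw ⟨x, hx, rfl⟩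
        exact x.2 hw
    · refine Fin.cases ?_ (fun j => ?_) j
      · intro _
        show Disjoint (Subtype.val '' f i) ({v} : Set V)
        rw [Set.disjoint_left]
        rintro w ⟨x, hx, rfl⟩ hw
        exact x.2 hw
      · intro h
        have h' : i ≠ j := fun e => h (by rw [e])
        exact (Set.disjoint_image_iff Subtype.val_injective).2 (h2 i j h')
  · intro i j
    refine Fin.cases ?_ (fun i => ?_) i
    · refine Fin.cases ?_ (fun j => ?_) j
      · intro h; exact absurd rfl h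
      · intro _
        obtain ⟨w, hw⟩ := hne j
        exact ⟨v, rfl, w.1, ⟨w, hw, rfl⟩, hv _ w.2⟩
    · refine Fin.cases ?_ (fun j => ?_) j
      · intro _
        obtain ⟨w, hw⟩ := hne i
        exact ⟨w.1, ⟨w, hw, rfl⟩, v, rfl, (hv _ w.2).symm⟩
      · intro h
        have h' : i ≠ j := fun e => h (by rw [e])
        obtain ⟨u, hu, w, hw, huw⟩ := h3 i j h'
        exact ⟨u.1, ⟨u, hu, rfl⟩, w.1, ⟨w, hw, rfl⟩, huw⟩

theorem ConCrit.crit {V : Type} [Fintype V] {G : SimpleGraph V} {k : ℕ} (h : ConCrit G k)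
    (hk : ¬ G.Colorable k) : Crit G k := by
  refine ⟨fun hc => hk ((colOn_univ_iff G k).1 hc), fun S hS => ?_⟩
  have hcard : Fintype.card S < Fintype.card V := by
    rw [Fintype.card_coe, ← Finset.card_univ]
    exact Finset.card_lt_card (Finset.ssubset_univ_iff.2 hS)
  obtain ⟨C⟩ := h S (fun i => {i.1}) (fun i => singleton_conn G i.1)
    (fun i j hij => by
      rw [Set.disjoint_singleton]
      exact fun e => hij (Subtype.ext e)) hcard
  refine ⟨fun v => if hv : v ∈ S then (C ⟨v, hv⟩ : ℕ) else 0, fun v hv => ?_, fun u hu v hv huv => ?_⟩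
  · simp only [hv, dif_pos]
    exact (C ⟨v, hv⟩).2
  · simp only [hu, hv, dif_pos]
    intro he
    have hadj : (QG G (fun i : S => ({i.1} : Set V))).Adj ⟨u, hu⟩ ⟨v, hv⟩ :=
      ⟨fun e => huv.ne (Subtype.ext_iff.1 e), u, rfl, v, rfl, huv⟩
    exact C.valid hadj (Fin.ext he)

theorem colorable_of_compl {V : Type} {G : SimpleGraph V} (v : V) {k : ℕ}
    (h : (G.induce {w | w ≠ v}).Colorable k) : G.Colorable (k + 1) := by
  obtain ⟨C⟩ := h
  refine ⟨SimpleGraph.Coloring.mk (fun w => if hw : w ≠ v then (C ⟨w, hw⟩).castSucc else Fin.last k) ?_⟩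
  intro u w huw
  by_cases hu : u = v
  · have hw : w ≠ v := fun e => huw.ne (hu.trans e.symm)
    simp only [hu, ne_eq, not_true_eq_false, dif_neg, not_false_eq_true, hw, dif_pos]
    exact (Fin.castSucc_ne_last _).symm
  · by_cases hw : w = v
    · simp only [hw, ne_eq, not_true_eq_false, dif_neg, not_false_eq_true, hu, dif_pos]
      exact Fin.castSucc_ne_last _
    · simp only [ne_eq, hw, hu, not_false_eq_true, dif_pos]
      intro he
      exact C.valid (show (G.induce {w | w ≠ v}).Adj ⟨u, hu⟩ ⟨w, hw⟩ from huw)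
        (Fin.castSucc_injective _ he)

/-- reduction of Hadwiger's conjecture for circular-arc graphs to minimal counterexamples -/
theorem reduction
    (H : ∀ (V : Type) [Fintype V] (G : SimpleGraph V) (k : ℕ), RA G → Crit G k → ConCrit G k →
      (∀ v, ∃ w, w ≠ v ∧ ¬ G.Adj v w) → HasMinor G (k + 1)) :
    ∀ (V : Type) [Fintype V] (G : SimpleGraph V) (k : ℕ), RA G → ¬ G.Colorable k →
      HasMinor G (k + 1) := by
  have main : ∀ n : ℕ, ∀ (V : Type) [Fintype V] (G : SimpleGraph V) (k : ℕ), Fintype.card V = n →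
      RA G → ¬ G.Colorable k → HasMinor G (k + 1) := by
    intro n
    induction n using Nat.strong_induction_on with
    | _ n ih =>
      intro V _ G k hn hG hk
      by_contra hno
      have hcc : ConCrit G k := by
        intro W _ f hc hd hlt
        by_contra hcol
        exact hno (hasMinor_of_quot hc hd (ih _ (hn ▸ hlt) W (QG G f) k rfl (hG.quot f hc hd) hcol))
      refine hno (H V G k hG (hcc.crit hk) hcc ?_)
      intro v
      by_contra hv
      push Not at hv
      apply hno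
      cases k with
      | zero =>
        refine ⟨fun _ => {v}, fun _ => singleton_conn G v, ?_, ?_⟩
        · intro i j hij; exact absurd (Fin.ext (by omega)) hij
        · intro i j hij; exact absurd (Fin.ext (by omega)) hij
      | succ k =>
        refine hasMinor_succ hv (ih (Fintype.card {w | w ≠ v}) ?_ {w | w ≠ v} _ k rfl
          (hG.induce _) (fun hc => hk (colorable_of_compl v hc)))
        rw [← hn]
        exact Fintype.card_subtype_lt (x := v) (by simp)
  intro V _ G k
  exact main _ V G k rfl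

end Pool.Agent.CA72
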