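import Mathlib
import Pool.Agent.CA72.RealModel
import Pool.Agent.CA72.MinCE
import Pool.Agent.CA92.Shift

/-!
# CA72: normal form of the cut model of a minimal counterexample, and the assembly
-/

set_option autoImplicit false

namespace Pool.Agent.CA72

open Finset Pool.Agent.CA31
open scoped Classical

/-- a real circular-arc graph without universal vertices has a cut model -/
theorem model_of_RA {V : Type} [Fintype V] {G : SimpleGraph V} (h : RA G)
    (hu : ∀ v, ∃ w, w ≠ v ∧ ¬ G.Adj v w) : ∃ M : Model V, M.IsModelOf G := by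
  obtain ⟨a, b, hab, hG⟩ := h
  have h3 : ∀ v, b v < a v + 1 := by
    intro v
    by_contra hv
    push Not at hv
    obtain ⟨w, hwv, hw⟩ := hu v
    refine hw ((hG v w).2 ⟨hwv.symm, a w, ?_, ?_⟩)
    · refine ⟨⌈a v - a w⌉, ?_, ?_⟩
      · have := Int.le_ceil (a v - a w); linarith
      · have := Int.ceil_lt_add_one (a v - a w); linarith
    · exact ⟨0, by push_cast; linarith, by have := hab w; push_cast; linarith⟩
  obtain ⟨M, hM⟩ := real_model a b hab h3
  exact ⟨M, hM G hG⟩

/-- cut just after the end of the first arc that ends: the arc `c` is the last one to end and the last one (among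
the arcs which avoid the cut) to begin -/
theorem exists_last {V : Type} [Fintype V] [Nonempty V] {G : SimpleGraph V} {M : Model V} (hG : M.IsModelOf G)
    (hu : ∀ v, ∃ w, w ≠ v ∧ ¬ G.Adj v w) :
    ∃ (M' : Model V) (c : V), M'.IsModelOf G ∧ M'.IsH c ∧ (∀ v, M'.o v < M'.c c) ∧
      (∀ v, v ≠ c → M'.c v < M'.c c) ∧ (∀ v, M'.IsH v → M'.o v ≤ M'.o c) := by
  have hH : ∃ v, M.IsH v := by
    by_contra hno
    push Not at hno
    obtain ⟨v⟩ := ‹Nonempty V›
    obtain ⟨w, hwv, hw⟩ := hu v
    refine hw ((hG v w).2 ⟨hwv.symm, 0, ?_, ?_⟩)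
    · exact (M.mem_zero v).2 (M.not_isH.1 (hno v))
    · exact (M.mem_zero w).2 (M.not_isH.1 (hno w))
  obtain ⟨c, hc, hmin⟩ := Finset.exists_min_image (univ.filter fun v => M.IsH v) M.c
    (by obtain ⟨v, hv⟩ := hH; exact ⟨v, mem_filter.2 ⟨mem_univ _, hv⟩⟩)
  rw [mem_filter] at hc
  obtain ⟨N, hNdef⟩ : ∃ N : ℕ, N = (univ.sup fun v => M.o v + M.c v) + 1 := ⟨_, rfl⟩
  have hN : ∀ v, M.o v < N ∧ M.c v < N := by
    intro v
    have := Finset.le_sup (f := fun v => M.o v + M.c v) (mem_univ v)
    have h0 := M.o_ne_c v v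
    omega
  have hp : M.c c + 1 ≤ N := (hN c).2
  have hcH := hc.2
  have hcH' : M.o c < M.c c := hcH
  have mo : ∀ v, (CA.rot M hN hp).o v = CA.rte N (M.c c + 1) (M.o v) := fun v => rfl
  have mc : ∀ v, (CA.rot M hN hp).c v = CA.rte N (M.c c + 1) (M.c v) := fun v => rfl
  refine ⟨CA.rot M hN hp, c, CA.rot_model hN hp hG, ?_, ?_, ?_, ?_⟩
  · show (CA.rot M hN hp).o c < (CA.rot M hN hp).c c
    rw [mo, mc]
    unfold CA.rte
    split_ifs <;> omega
  · intro v
    rw [mo, mc]
    have h1 := hN v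
    have h2 := M.o_ne_c v c
    unfold CA.rte
    split_ifs <;> omega
  · intro v hv
    rw [mc, mc]
    have h1 := hN v
    have h2 : M.c v ≠ M.c c := fun h => hv (M.c_inj h)
    unfold CA.rte
    split_ifs <;> omega
  · intro v hv
    have hv' : (CA.rot M hN hp).o v < (CA.rot M hN hp).c v := hv
    rw [mo, mc] at hv'
    rw [mo, mo]
    by_cases hvc : v = c
    · rw [hvc]
    have h1 := hN v
    have h2 : M.c v ≠ M.c c := fun h => hvc (M.c_inj h)
    by_cases hvH : M.IsH v
    · have h3 := hmin v (mem_filter.2 ⟨mem_univ _, hvH⟩)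
      have h4 : M.o v < M.c v := hvH
      unfold CA.rte at hv' ⊢
      split_ifs at hv' ⊢ <;> omega
    · have h4 : M.c v < M.o v := M.not_isH.1 hvH
      unfold CA.rte at hv' ⊢
      split_ifs at hv' ⊢ <;> omega

/-- statement of Theorem A: the cut conditions in a minimal counterexample -/
def TheoremA : Prop :=
  ∀ (V : Type) [Fintype V] (G : SimpleGraph V) (M : Model V) (k : ℕ), M.IsModelOf G → Crit G k → ConCrit G k →
    ∀ x y, x ≤ y → CA.Far M x y → k + 1 ≤ (CA.AU M x y).card

/-- Hadwiger's conjecture for circular-arc graphs from Theorem A and the packing theorem -/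
theorem hadwiger_of (hA : TheoremA) (hT : CA92.ThreeClique) {V : Type} [Fintype V] (G : SimpleGraph V) (k : ℕ)
    (hG : RA G) (hk : ¬ G.Colorable k) : HasMinor G (k + 1) := by
  refine reduction ?_ V G k hG hk
  intro V _ G k hG hcr hcc hu
  obtain ⟨M, hM⟩ := model_of_RA hG hu
  have hne : Nonempty V := by
    by_contra h
    rw [not_nonempty_iff] at h
    refine hcr.1 ⟨fun _ => 0, fun v => h.elim v, fun v => h.elim v⟩
  obtain ⟨M', c, hM', hcH, ho, hc, hlast⟩ := exists_last hM hu
  refine CA92.hasMinor_of_last hT hM' hcH ho hc hlast ?_ ?_ hcr.1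
  · intro x y hxy _ hf
    exact hA V G M' k hM' hcr hcc x y hxy hf
  · exact hcr.2 _ (erase_ssubset (mem_univ c)).ne

end Pool.Agent.CA72
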